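import Mathlib

set_option autoImplicit false

/-!
# Project ET (MP_d5a1e1_nt): representation functions of bases of every order

THEOREM (S_MAIN).  Let h ≥ 2 and let A be an asymptotic basis of order h.  Then the (unordered) representation
function r = r_(A,h) is unbounded or r(n) ≥ min(h+1, 4) on a set of positive lower density.

Idea.  f(z) = ∑_(a in A) z^a, 0 < x < 1, F = f(x), averages over the circle |z|^2 = x.
B_k = average of |f|^(2k) = ∑ ord_k(n)^2 x^n.  Inserting one common element: B_(k+1) ≥ (k+1)(F-k) B_k (INJ).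
Cauchy - Schwarz away from z = 1: B_(h-1)^2 ≤ B_(h-2) * (average of |f^h|^2 away from 1) up to small errors, and
f^h = h! ∑ r(n) z^n up to small errors (MUL), where ∑ c z^n is small away from z = 1.  So
(h!)^2 ∑ (r(n)-c)^2 x^n ≥ B_(h-1)^2 / B_(h-2) ≥ (h-1)(h-1)! F^h = (h-1)(h-1)! h! ∑ r(n) x^n, that is
Var(r) ≥ (1-1/h) mean(r) (VAR).  But (r - 7/4)^2 ≤ 9/16 r for r = 1, 2, 3 and 9/16 < 2/3 ≤ 1-1/h (DEN).
-/

namespace Pool.Agent.L7h10.ET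

open Finset

/-- number of unordered representations of n as a sum of h elements of A (as in the frozen statement) -/
noncomputable def rep (A : Set ℕ) (h n : ℕ) : ℕ :=
  Set.ncard {s : Multiset ℕ | Multiset.card s = h ∧ (∀ a ∈ s, a ∈ A) ∧ s.sum = n}

/-- the unordered representations with a repeated summand -/
noncomputable def repd (A : Set ℕ) (h n : ℕ) : ℕ :=
  Set.ncard {s : Multiset ℕ | Multiset.card s = h ∧ (∀ a ∈ s, a ∈ A) ∧ s.sum = n ∧ ¬ s.Nodup}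

/-- number of ordered representations -/
noncomputable def ord (A : Set ℕ) (k n : ℕ) : ℕ :=
  Set.ncard {t : Fin k → ℕ | (∀ i, t i ∈ A) ∧ ∑ i, t i = n}

/-- f(z) for complex z -/
noncomputable def fz (A : Set ℕ) (z : ℂ) : ℂ := ∑' n : ℕ, A.indicator (fun n => z ^ n) n

/-- f(x) for real x -/
noncomputable def F (A : Set ℕ) (x : ℝ) : ℝ := ∑' n : ℕ, A.indicator (fun n => x ^ n) n

/-- ∑ ord_k(n)^2 x^n -/
noncomputable def B (A : Set ℕ) (k : ℕ) (x : ℝ) : ℝ := ∑' n : ℕ, (ord A k n : ℝ) ^ 2 * x ^ n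

/-! ## Counting -/

/-- The sets are finite (every entry is ≤ n) and first-entry recursion (`Fin.consEquiv` / `Fin.cons`):
the tuples with sum n and first entry i correspond to the k-tuples with sum n - i. -/
def S_REC : Prop := ∀ (A : Set ℕ) (k n : ℕ),
  {t : Fin k → ℕ | (∀ i, t i ∈ A) ∧ ∑ i, t i = n}.Finite ∧
  {s : Multiset ℕ | Multiset.card s = k ∧ (∀ a ∈ s, a ∈ A) ∧ s.sum = n}.Finite ∧
  (ord A 0 n = if n = 0 then 1 else 0) ∧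
  ord A (k + 1) n = ∑ p ∈ antidiagonal n, A.indicator (fun _ => 1) p.1 * ord A k p.2

/-- Powers of f: by REC and the Cauchy product (`tsum_mul_tsum_eq_tsum_sum_antidiagonal_of_summable_norm`),
induction on k; absolute convergence: ord A k n ≤ (n+1)^k or keep the summability of the norms in the
induction. -/
def S_POW : Prop := ∀ (A : Set ℕ) (k : ℕ),
  (∀ z : ℂ, ‖z‖ < 1 → HasSum (fun n : ℕ => (ord A k n : ℂ) * z ^ n) (fz A z ^ k)) ∧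
  (∀ x : ℝ, 0 ≤ x → x < 1 → HasSum (fun n : ℕ => (ord A k n : ℝ) * x ^ n) (F A x ^ k)) ∧
  (∀ x : ℝ, 0 ≤ x → x < 1 → Summable (fun n : ℕ => (ord A k n : ℝ) ^ 2 * x ^ n))

/-- Inserting a common element, coefficient version.  Pairs (t, u) of k-tuples with sum n - c and a new element
c in A, not an entry of u, and a position i give the pair (c, t), (u with c inserted at position i)
(`Fin.cons`, `Fin.insertNth`) of (k+1)-tuples with sum n, injectively (c is the first entry of the first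
tuple, i is the only position of c in the second).  The number of pairs (t, u) with c among the entries
of u is subtracted. -/
def S_INS : Prop := ∀ (A : Set ℕ) (k n : ℕ),
  (k + 1) * ∑ p ∈ antidiagonal n, A.indicator (fun _ => 1) p.1 * ord A k p.2 ^ 2 ≤
    ord A (k + 1) n ^ 2 + (k + 1) * ∑ p ∈ antidiagonal n, A.indicator (fun _ => 1) p.1 *
      (ord A k p.2 * Set.ncard {u : Fin k → ℕ | (∀ i, u i ∈ A) ∧ ∑ i, u i = p.2 ∧ ∃ i, u i = p.1})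

/-- From INS and POW.  Multiply by x^n and sum over n (Cauchy product).  The last sum gives
∑_m ord_k(m) x^m ∑_(u, sum m) ∑_(c entry of u) x^c ≤ ∑_m ord_k(m) x^m * k * ord_k(m) = k B_k as x^c ≤ 1:
interchange: ∑_c #{u : c entry of u} ≤ k ord_k(m). -/
def S_INJ : Prop := ∀ (A : Set ℕ) (k : ℕ) (x : ℝ), 0 ≤ x → x < 1 →
  ((k : ℝ) + 1) * (F A x - k) * B A k x ≤ B A (k + 1) x

/-- Tuples and multisets: t ↦ univ.val.map t; the fibre of a multiset s consists of the t0 ∘ σ, σ a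
permutation (`Multiset.map_univ_eq_iff` or similar), so it has at most h! elements, and exactly h! if s has
no repeated element (t0 injective). -/
def S_MUL : Prop := ∀ (A : Set ℕ) (h n : ℕ),
  ord A h n ≤ h.factorial * rep A h n ∧
  h.factorial * rep A h n ≤ ord A h n + h.factorial * repd A h n

/-- Representations with a repeated summand.  A multiset with a repeated element b is b, b + a multiset of
h - 2 elements, so their number is at most the number of the pairs (b, t), b in A, t an (h-2)-tuple, with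
2 b + ∑ t = n, and ∑_n x^n gives F(x^2) F(x)^(h-2) ≤ F(x)^(h-1). -/
def S_DBL : Prop := ∀ (A : Set ℕ) (h : ℕ) (x : ℝ), 2 ≤ h → 0 ≤ x → x < 1 →
  Summable (fun n : ℕ => (repd A h n : ℝ) * x ^ n) ∧
  ∑' n : ℕ, (repd A h n : ℝ) * x ^ n ≤ F A x ^ (h - 1)

/-- Adding h - k copies of a fixed element of A is injective, so rep_k(n) ≤ rep_h(n + (h-k) a) ≤ K; then MUL. -/
def S_BDD : Prop := ∀ (A : Set ℕ) (h K : ℕ), A.Nonempty → (∀ n, rep A h n ≤ K) →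
  ∀ k ≤ h, ∀ n, ord A k n ≤ k.factorial * K

/-! ## Analysis on the circle |z| = ρ -/

/-- Parseval (copy `parseval_inf` of Pool/Agent/S06599.lean, line 535). -/
def S_PAR : Prop := ∀ (u : ℕ → ℝ) (M : ℝ), (∀ n, |u n| ≤ M) → ∀ ρ : ℝ, 0 ≤ ρ → ρ < 1 →
  ∫ θ in (0 : ℝ)..(2 * Real.pi), ‖∑' n : ℕ, (u n : ℂ) * ((ρ : ℂ) * Complex.exp (θ * Complex.I)) ^ n‖ ^ 2 =
    2 * Real.pi * ∑' n : ℕ, u n ^ 2 * (ρ ^ 2) ^ n

/-- The kernel 1/(1-z): |1 - ρ e^(iθ)|^2 ≥ 4 ρ sin^2(θ/2) ≥ 2 sin^2(θ/2) and sin(θ/2) ≥ min(θ, 2π-θ)/π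
(Jordan), so the integrand is ≤ (π^2/2) (1/θ^2 + 1/(2π-θ)^2) and the integral at most π^2/δ. -/
def S_KER : Prop := ∀ ρ δ : ℝ, 1 / 2 ≤ ρ → ρ < 1 → 0 < δ → δ ≤ 1 →
  ∫ θ in δ..(2 * Real.pi - δ), ‖(1 - (ρ : ℂ) * Complex.exp (θ * Complex.I))⁻¹‖ ^ 2 ≤ 2 * Real.pi * (2 / δ)

/-- Cauchy - Schwarz for continuous functions on an interval (discriminant of ∫ (p + s q)^2 ≥ 0, or Hölder with
exponents 2, 2). -/
def S_CSI : Prop := ∀ (p q : ℝ → ℝ) (a b : ℝ), a ≤ b → Continuous p → Continuous q →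
  (∫ θ in a..b, p θ * q θ) ^ 2 ≤ (∫ θ in a..b, p θ ^ 2) * ∫ θ in a..b, q θ ^ 2

/-- From POW, PAR (POW with k = 1 is not needed: continuity and the bound from the defining series;
‖fz A z‖ ^ (2k) = ‖fz A z ^ k‖ ^ 2 = ‖∑ ord_k(n) z^n‖ ^ 2). -/
def S_AVG : Prop := ∀ (A : Set ℕ) (ρ : ℝ), 0 ≤ ρ → ρ < 1 →
  Continuous (fun θ : ℝ => fz A ((ρ : ℂ) * Complex.exp (θ * Complex.I))) ∧
  (∀ θ : ℝ, ‖fz A ((ρ : ℂ) * Complex.exp (θ * Complex.I))‖ ≤ F A ρ) ∧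
  ∀ (k : ℕ) (M : ℝ), (∀ n, (ord A k n : ℝ) ≤ M) →
    ∫ θ in (0 : ℝ)..(2 * Real.pi), ‖fz A ((ρ : ℂ) * Complex.exp (θ * Complex.I))‖ ^ (2 * k) =
      2 * Real.pi * B A k (ρ ^ 2)

/-- From POW, PAR, KER, CSI, AVG.  Let φ(θ) = fz A (ρ e^(iθ)), ρ^2 = x, continuous, |φ| ≤ F A ρ.
1/(2π) ∫ |φ|^(2k) over the circle is B_k (PAR with u = ord_k, POW).  Over [δ, 2π-δ] the average of
|φ|^(2(h-1)) is at least B_(h-1) - δ F(ρ)^(2(h-1)) (the rest has length 2δ); by Cauchy - Schwarz its square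
is at most (average of |φ|^(2(h-2))) (average of |φ^h|^2 over [δ, 2π-δ]), and
φ^h = ∑ v z^n + b/(1-z) + ∑ g z^n, |p+q+s|^2 ≤ (1+η)|p|^2 + 2(1+1/η)(|q|^2+|s|^2). -/
def S_ANA : Prop := ∀ (A : Set ℕ) (h : ℕ) (v g : ℕ → ℝ) (b M : ℝ), 2 ≤ h →
  (∀ n, |v n| ≤ M) → (∀ n, |g n| ≤ M) → (∀ k ≤ h, ∀ n, (ord A k n : ℝ) ≤ M) →
  (∀ n, (ord A h n : ℝ) = v n + b + g n) →
  ∀ x δ η : ℝ, 1 / 4 ≤ x → x < 1 → 0 < δ → δ ≤ 1 → 0 < η →
    0 ≤ B A (h - 1) x - δ * F A (Real.sqrt x) ^ (2 * (h - 1)) →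
    (B A (h - 1) x - δ * F A (Real.sqrt x) ^ (2 * (h - 1))) ^ 2 ≤
      B A (h - 2) x * ((1 + η) * ∑' n : ℕ, v n ^ 2 * x ^ n +
        2 * (1 + 1 / η) * (b ^ 2 * (2 / δ) + ∑' n : ℕ, g n ^ 2 * x ^ n))

/-! ## The theorem -/

/-- The variance inequality.  From POW, INJ, MUL, DBL, BDD, ANA with v = h! (r - c), b = h! c, g = ord - h! r,
δ = T (1-x), T large, x → 1.  (helper10) -/
def S_VAR : Prop := ∀ (A : Set ℕ) (h K : ℕ), 2 ≤ h → A.Infinite → (∀ n, rep A h n ≤ K) →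
  ∀ c ε : ℝ, 0 < ε → ∃ x₀ : ℝ, x₀ < 1 ∧ ∀ x : ℝ, x₀ < x → x < 1 →
    (1 - 1 / (h : ℝ)) * ((1 - x) * ∑' n : ℕ, (rep A h n : ℝ) * x ^ n) ≤
      (1 - x) * ∑' n : ℕ, ((rep A h n : ℝ) - c) ^ 2 * x ^ n + ε

/-- Abel means and lower density: x = 1 - t/N, x^N ≤ exp(-t) ≤ κ,
(1-x) ∑_(n in E) x^n ≤ (t/N) #(E ∩ [0,N)) + x^N. -/
def S_ABE : Prop := ∀ (E : Set ℕ) (κ x₀ : ℝ), 0 < κ → x₀ < 1 →
  (∀ x : ℝ, x₀ < x → x < 1 → 2 * κ ≤ (1 - x) * ∑' n : ℕ, E.indicator (fun n => x ^ n) n) →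
  ∃ δ : ℝ, 0 < δ ∧ ∃ N₀ : ℕ, ∀ N : ℕ, N₀ ≤ N → δ * N ≤ (Set.ncard {n : ℕ | n < N ∧ n ∈ E} : ℝ)

/-- From VAR and ABE.  If r ≤ K, then A is infinite and E = {r ≥ min(h+1,4)} satisfies the hypothesis of ABE:
h ≥ 3: take c = 7/4; (r-c)^2 ≤ 9/16 r for r = 1, 2, 3; for the other n: (r-c)^2 ≤ (K+2)^2 if n is in E, and
there are finitely many n with r(n) = 0.  So (2/3 - 9/16) mean(r) ≤ (K+2)^2 Abel(E) + o(1) and
mean(r) ≥ 1 - o(1).  h = 2: c = 3/2, (r-c)^2 ≤ 1/4 r for r = 1, 2, and 1/4 < 1/2. -/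
def S_MAIN : Prop := ∀ h : ℕ, 2 ≤ h → ∀ A : Set ℕ,
  (∃ N : ℕ, ∀ n : ℕ, N ≤ n → ∃ s : Multiset ℕ, Multiset.card s = h ∧ (∀ a ∈ s, a ∈ A) ∧ s.sum = n) →
  (∀ M : ℕ, ∃ n : ℕ, M < rep A h n) ∨
    ∃ δ : ℝ, 0 < δ ∧ ∃ N₀ : ℕ, ∀ N : ℕ, N₀ ≤ N →
      δ * N ≤ (Set.ncard {n : ℕ | n < N ∧ min (h + 1) 4 ≤ rep A h n} : ℝ)

end Pool.Agent.L7h10.ET
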